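import Pool.Agent.H79.POS.Main

/-! Positivity of integer linear recurrence sequences of unrestricted order: a partial algorithm
which halts whenever characteristic roots of equal modulus are conjugate up to powers, and a total
algorithm which may only give up on characteristic polynomials that are not a power of an
irreducible polynomial. -/

namespace Pool.Agent.Results.MP_5326a7_lc.ConjugateModuli

open Pool.Agent.H79.POS

theorem result :
    (∃ f : List ℤ × List ℤ →. Bool, Partrec f ∧
      (∀ p u, IsLRS p u → true ∈ f p → ∀ n, 0 ≤ u n) ∧
      (∀ p u, IsLRS p u → false ∈ f p → ∃ n, u n < 0) ∧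
      (∀ p u, IsLRS p u → TrivialModuli u → (f p).Dom) ∧
      (∀ p u, IsLRS p u → NonDegenerate u → DominantTrivial u → (f p).Dom)) ∧
    (∃ g : List ℤ × List ℤ → Option Bool, Computable g ∧
      (∀ p u, IsLRS p u → g p = some true → ∀ n, 0 ≤ u n) ∧
      (∀ p u, IsLRS p u → g p = some false → ∃ n, u n < 0) ∧
      (∀ p, g p = none → ¬ IsPrimePow (charPoly p.1))) :=
  main

end Pool.Agent.Results.MP_5326a7_lc.ConjugateModuli
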